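import Mathlib

/-! An attractor of the flattening automaton whose trajectory has infinitely many zeroes and ones
at every time, and takes both values infinitely often at every site. -/

namespace Pool.Agent.Results.MP_851083_pr.Osc

/-- `F(a,b,c,d) = max(min(a,b), min(c,d))` on `{0,1} = Bool` (`false = 0 < true = 1`) -/
def F (a b c d : Bool) : Bool := max (min a b) (min c d)

/-- one step of the automaton -/
def step (x : ℤ × ℤ → Bool) (p : ℤ × ℤ) : Bool :=
  F (x (p.1, p.2)) (x (p.1, p.2 - 1)) (x (p.1 - 1, p.2)) (x (p.1 - 1, p.2 - 1))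

/-- the trajectory: `TR s n` is the configuration at time `t = n - 1` -/
def TR (s : ℤ × ℤ → Bool) : ℕ → ℤ × ℤ → Bool
  | 0 => s
  | n + 1 => step (TR s n)

/-- every finite perturbation of `s` has a trajectory that is a finite perturbation of `TR s` -/
def Attractor (s : ℤ × ℤ → Bool) : Prop :=
  ∀ s' : ℤ × ℤ → Bool, {p | s' p ≠ s p}.Finite →
    {q : ℕ × (ℤ × ℤ) | TR s' q.1 q.2 ≠ TR s q.1 q.2}.Finite

lemma zero_col {x : ℤ × ℤ → Bool} {a b w : ℤ} (h : ∀ i, a ≤ i → i ≤ b → x (i, w) = false)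
    (n : ℕ) : ∀ i j, a + n ≤ i → i ≤ b → w ≤ j → j ≤ w + n → TR x n (i, j) = false := by
  induction n with
  | zero =>
    intro i j h1 h2 h3 h4
    obtain rfl : j = w := by simp at h4; omega
    exact h i (by simpa using h1) h2
  | succ n ih =>
    intro i j h1 h2 h3 h4
    push_cast at h1 h4
    simp only [TR, step]
    by_cases hj : j ≤ w + n
    · rw [ih i j (by omega) h2 h3 hj, ih (i - 1) j (by omega) (by omega) h3 hj]
      simp [F]
    · rw [ih i (j - 1) (by omega) h2 (by omega) (by omega),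
        ih (i - 1) (j - 1) (by omega) (by omega) (by omega) (by omega)]
      simp [F]

lemma one_row {x : ℤ × ℤ → Bool} {c d r : ℤ} (h : ∀ j, c ≤ j → j ≤ d → x (r, j) = true)
    (n : ℕ) : ∀ i j, r ≤ i → i ≤ r + n → c + n ≤ j → j ≤ d → TR x n (i, j) = true := by
  induction n with
  | zero =>
    intro i j h1 h2 h3 h4
    obtain rfl : i = r := by simp at h2; omega
    exact h j (by simpa using h3) h4
  | succ n ih =>
    intro i j h1 h2 h3 h4
    push_cast at h2 h3
    simp only [TR, step]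
    by_cases hi : i ≤ r + n
    · rw [ih i j h1 hi (by omega) h4, ih i (j - 1) h1 hi (by omega) (by omega)]
      simp [F]
    · rw [ih (i - 1) j (by omega) (by omega) (by omega) h4,
        ih (i - 1) (j - 1) (by omega) (by omega) (by omega) (by omega)]
      simp [F]

lemma wipe {x y : ℤ × ℤ → Bool} {N : ℤ} {C : ℕ} (hN : 0 ≤ N) (hC : N < C)
    (hd : ∀ i j, y (i, j) ≠ x (i, j) → -N ≤ i ∧ i ≤ N ∧ -N ≤ j ∧ j ≤ N)
    (h1 : ∀ i, -4 * (C : ℤ) ≤ i → i ≤ 4 * C → x (i, C) = false)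
    (h2 : ∀ i, -4 * (C : ℤ) ≤ i → i ≤ 4 * C → x (i, -C) = false) :
    {q : ℕ × (ℤ × ℤ) | TR y q.1 q.2 ≠ TR x q.1 q.2}.Finite := by
  have h1' : ∀ i, -4 * (C : ℤ) ≤ i → i ≤ 4 * C → y (i, C) = false := by
    intro i a b
    rw [← h1 i a b]
    by_contra h
    have := hd _ _ h
    omega
  have h2' : ∀ i, -4 * (C : ℤ) ≤ i → i ≤ 4 * C → y (i, -C) = false := by
    intro i a b
    rw [← h2 i a b]
    by_contra h
    have := hd _ _ h
    omega
  have key : ∀ n : ℕ, n ≤ 2 * C → ∀ i j, TR y n (i, j) ≠ TR x n (i, j) →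
      -N ≤ i ∧ i ≤ N + n ∧ -N ≤ j ∧ j < C := by
    intro n
    induction n with
    | zero =>
      intro _ i j h
      have := hd i j h
      omega
    | succ n ih =>
      intro hn i j h
      have ih' := ih (by omega)
      have hb : -N ≤ i ∧ i ≤ N + (n + 1 : ℕ) ∧ -N ≤ j ∧ j ≤ C := by
        by_contra hc
        apply h
        simp only [TR, step]
        have e : ∀ a b : ℤ, (a = i ∨ a = i - 1) → (b = j ∨ b = j - 1) →
            TR y n (a, b) = TR x n (a, b) := by
          intro a b ha hb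
          by_contra hne
          have := ih' a b hne
          push_cast at hc
          omega
        rw [e i j (by simp) (by simp), e i (j - 1) (by simp) (by simp),
          e (i - 1) j (by simp) (by simp), e (i - 1) (j - 1) (by simp) (by simp)]
      refine ⟨hb.1, hb.2.1, hb.2.2.1, lt_of_le_of_ne hb.2.2.2 fun hj => h ?_⟩
      rw [zero_col h1 _ i j (by omega) (by omega) (by omega) (by omega),
        zero_col h1' _ i j (by omega) (by omega) (by omega) (by omega)]
  have hend : TR y (2 * C) = TR x (2 * C) := by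
    funext ⟨i, j⟩
    by_contra h
    have := key _ le_rfl i j h
    apply h
    rw [zero_col h2 _ i j (by omega) (by omega) (by omega) (by omega),
      zero_col h2' _ i j (by omega) (by omega) (by omega) (by omega)]
  have hafter : ∀ n, 2 * C ≤ n → TR y n = TR x n := by
    intro n hn
    induction n, hn using Nat.le_induction with
    | base => exact hend
    | succ n _ ih => simp only [TR, ih]
  refine ((Set.finite_Iic (2 * C)).prod
    ((Set.finite_Icc (-N) (N + 2 * C)).prod (Set.finite_Icc (-N) C))).subset ?_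
  rintro ⟨n, i, j⟩ h
  have hn : n ≤ 2 * C := by
    by_contra hc
    exact h (by rw [hafter n (by omega)])
  have := key n hn i j h
  simp only [Set.mem_prod, Set.mem_Iic, Set.mem_Icc]
  omega

open Classical in
/-- rows of ones at height `-16^l`, of half-length `2 * 16^l` -/
noncomputable def s0 (p : ℤ × ℤ) : Bool :=
  decide (∃ l : ℕ, p.1 = -((16 ^ l : ℕ) : ℤ) ∧ -2 * ((16 ^ l : ℕ) : ℤ) ≤ p.2 ∧
    p.2 ≤ 2 * ((16 ^ l : ℕ) : ℤ))

lemma s0_one (l : ℕ) (j : ℤ) (h1 : -2 * ((16 ^ l : ℕ) : ℤ) ≤ j) (h2 : j ≤ 2 * ((16 ^ l : ℕ) : ℤ)) :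
    s0 (-((16 ^ l : ℕ) : ℤ), j) = true := by
  simp only [s0, decide_eq_true_eq]
  exact ⟨l, rfl, h1, h2⟩

lemma s0_zero (k : ℕ) (i j : ℤ) (hj : j = (3 * 16 ^ k : ℕ) ∨ j = -((3 * 16 ^ k : ℕ) : ℤ))
    (h1 : -4 * ((3 * 16 ^ k : ℕ) : ℤ) ≤ i) : s0 (i, j) = false := by
  simp only [s0, decide_eq_false_iff_not]
  rintro ⟨l, e, a, b⟩
  have hk : 0 < 16 ^ k := by positivity
  rcases le_or_gt l k with h | h
  · have : 16 ^ l ≤ 16 ^ k := Nat.pow_le_pow_right (by norm_num) h
    omega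
  · have : 16 ^ (k + 1) ≤ 16 ^ l := Nat.pow_le_pow_right (by norm_num) h
    rw [pow_succ] at this
    omega

lemma big (m : ℕ) : m < 16 ^ m := Nat.lt_pow_self (by norm_num)

theorem result : ∃ s : ℤ × ℤ → Bool, Attractor s ∧
    (∀ n, {p | TR s n p = false}.Infinite ∧ {p | TR s n p = true}.Infinite) ∧
    (∀ p, {n | TR s n p = false}.Infinite ∧ {n | TR s n p = true}.Infinite) := by
  have Z : ∀ (k n : ℕ) (i j : ℤ), -4 * ((3 * 16 ^ k : ℕ) : ℤ) + n ≤ i →
      i ≤ 4 * ((3 * 16 ^ k : ℕ) : ℤ) → -((3 * 16 ^ k : ℕ) : ℤ) ≤ j →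
      j ≤ -((3 * 16 ^ k : ℕ) : ℤ) + n → TR s0 n (i, j) = false := fun k n =>
    zero_col (fun i a _ => s0_zero k i _ (Or.inr rfl) a) n
  have O := fun (l n : ℕ) => one_row (s0_one l) n
  refine ⟨s0, fun y hy => ?_, fun n => ⟨?_, ?_⟩, fun ⟨i, j⟩ => ⟨?_, ?_⟩⟩
  · obtain ⟨N, hN⟩ := (hy.image fun p => p.1.natAbs + p.2.natAbs).bddAbove
    have := big N
    refine wipe (N := N) (C := 3 * 16 ^ N) (by omega) (by omega) (fun i j h => ?_)
      (fun i a _ => s0_zero N i _ (Or.inl rfl) a) (fun i a _ => s0_zero N i _ (Or.inr rfl) a)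
    have : i.natAbs + j.natAbs ≤ N := hN ⟨(i, j), h, rfl⟩
    omega
  · intro hf
    obtain ⟨N, hN⟩ := (hf.image fun p => p.2.natAbs).bddAbove
    have := big (N + n)
    have h2 : (-((3 * 16 ^ (N + n) : ℕ) : ℤ)).natAbs ≤ N :=
      hN ⟨(0, _), Z (N + n) n 0 _ (by omega) (by omega) le_rfl (by omega), rfl⟩
    omega
  · intro hf
    obtain ⟨N, hN⟩ := (hf.image fun p => p.1.natAbs).bddAbove
    have := big (N + n)
    have h2 : (-((16 ^ (N + n) : ℕ) : ℤ)).natAbs ≤ N :=
      hN ⟨(_, 0), O (N + n) n _ 0 le_rfl (by omega) (by omega) (by omega), rfl⟩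
    omega
  · intro hf
    obtain ⟨N, hN⟩ := hf.bddAbove
    have := big (N + i.natAbs + j.natAbs)
    have h2 : 6 * 16 ^ (N + i.natAbs + j.natAbs) ≤ N :=
      hN (Z (N + i.natAbs + j.natAbs) _ i j (by omega) (by omega) (by omega) (by omega))
    omega
  · intro hf
    obtain ⟨N, hN⟩ := hf.bddAbove
    have := big (N + i.natAbs + j.natAbs)
    have h2 : 16 ^ (N + i.natAbs + j.natAbs) + i.natAbs ≤ N :=
      hN (O (N + i.natAbs + j.natAbs) _ i j (by omega) (by omega) (by omega) (by omega))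
    omega

end Pool.Agent.Results.MP_851083_pr.Osc
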